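import Pool.Agent.Q291.HEA.Stm2

/-!
Jobs SCA, LAWS of project HEA (helper291).
-/

set_option autoImplicit false

namespace Pool.Agent.Q66.HEA

open MeasureTheory Filter Topology Set Pool.Agent.Q291.HEA

theorem t_SCA : P_SCA := by
  intro ι _ μ _ β
  have hm : Measurable (fun x : ℝ => β * x) := measurable_const_mul β
  refine ⟨?_, ?_, ?_, ?_⟩
  · intro p hp
    have h1 := Measure.infinitePi_map_pi (fun _ : ι => μ) (f := fun _ x => β * x) (fun _ => hm)
    rw [← h1] at hp
    have hm2 : Measurable (fun (x : ι → ℝ) (i : ι) => β * x i) :=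
      measurable_pi_lambda _ fun i => hm.comp (measurable_pi_apply i)
    exact ae_of_ae_map hm2.aemeasurable hp
  · intro h
    unfold Pool.Agent.Q291.HEA.Sym at h ⊢
    rw [Measure.map_map measurable_neg hm]
    conv_rhs => rw [← h, Measure.map_map hm measurable_neg]
    congr 1
    funext x
    simp
  · intro l p hβ h x
    rw [map_measureReal_apply hm measurableSet_Ico]
    have e : (fun x : ℝ => β * x) ⁻¹' (Ico x (x + β * l)) = Ico (x / β) (x / β + l) := by
      ext z
      simp only [mem_preimage, mem_Ico]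
      have e1 : x / β + l = (x + β * l) / β := by field_simp
      rw [e1, div_le_iff₀ hβ, lt_div_iff₀ hβ, mul_comm z β]
    rw [e]
    exact h _
  · intro h
    rw [integrable_map_measure (by fun_prop) hm.aemeasurable]
    exact h.const_mul β

theorem meas_F : Measurable (fun z : ℝ × ℝ => F z.1 z.2) := by
  unfold F
  exact (Real.measurable_log.comp ((Real.measurable_cosh.comp
    (measurable_fst.add measurable_snd)).div (Real.measurable_cosh.comp
      (measurable_fst.sub measurable_snd)))).const_mul _

theorem F_neg (x y : ℝ) : F (-x) y = - F x y := by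
  unfold F
  have h1 : Real.cosh (-x + y) = Real.cosh (x - y) := by
    rw [← Real.cosh_neg]; congr 1; ring
  have h2 : Real.cosh (-x - y) = Real.cosh (x + y) := by
    rw [← Real.cosh_neg]; congr 1; ring
  rw [h1, h2, ← inv_div (Real.cosh (x + y)), Real.log_inv]
  ring

theorem ser_prob (μ : Measure ℝ) [IsProbabilityMeasure μ] : IsProbabilityMeasure (ser F μ) :=
  Measure.isProbabilityMeasure_map meas_F.aemeasurable

theorem ser_sym (μ : Measure ℝ) [IsProbabilityMeasure μ] (h : Pool.Agent.Q291.HEA.Sym μ) :
    Pool.Agent.Q291.HEA.Sym (ser F μ) := by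
  unfold Pool.Agent.Q291.HEA.Sym at h ⊢
  unfold ser
  rw [Measure.map_map measurable_neg meas_F]
  have e : ((fun x : ℝ => -x) ∘ fun z : ℝ × ℝ => F z.1 z.2) =
      (fun z : ℝ × ℝ => F z.1 z.2) ∘ (Prod.map (fun x : ℝ => -x) id) := by
    funext z
    simp [F_neg]
  rw [e, ← Measure.map_map meas_F (measurable_neg.prodMap measurable_id),
    ← Measure.map_prod_map _ _ measurable_neg measurable_id, h, Measure.map_id]

theorem par_prob (ν : Measure ℝ) [IsProbabilityMeasure ν] (n : ℕ) :
    IsProbabilityMeasure (par ν n) := by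
  induction n with
  | zero => exact Measure.dirac.isProbabilityMeasure
  | succ n ih =>
    have := ih
    exact Measure.probabilitymeasure_of_probabilitymeasures_conv ν (par ν n)

theorem par_sym (ν : Measure ℝ) [IsProbabilityMeasure ν] (h : Pool.Agent.Q291.HEA.Sym ν)
    (n : ℕ) : Pool.Agent.Q291.HEA.Sym (par ν n) := by
  induction n with
  | zero =>
    unfold Pool.Agent.Q291.HEA.Sym par
    rw [Measure.map_dirac' measurable_neg, neg_zero]
  | succ n ih =>
    have hp := par_prob ν n
    unfold Pool.Agent.Q291.HEA.Sym at h ih ⊢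
    have e := Measure.map_conv_addMonoidHom (μ := ν) (ν := par ν n) (negAddMonoidHom : ℝ →+ ℝ)
      measurable_neg
    have e1 : (⇑(negAddMonoidHom : ℝ →+ ℝ)) = fun x : ℝ => -x := rfl
    rw [e1, h, ih] at e
    exact e

theorem lawN_prob (B : ℕ) (μ : Measure ℝ) [IsProbabilityMeasure μ] (n : ℕ) :
    IsProbabilityMeasure (lawN B μ n) := by
  induction n with
  | zero => unfold lawN; infer_instance
  | succ n ih =>
    have h3 := ser_prob (lawN B μ n)
    exact par_prob _ _

theorem t_LAWS : P_LAWS := by
  intro B μ _ hs n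
  induction n with
  | zero => exact ⟨by unfold lawN; infer_instance, hs⟩
  | succ n ih =>
    obtain ⟨h1, h2⟩ := ih
    have h3 := ser_prob (lawN B μ n)
    exact ⟨par_prob _ _, par_sym _ (ser_sym _ h2) _⟩

end Pool.Agent.Q66.HEA
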