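import Pool.Agent.Q66.HEA.Sca

/-!
Job LAWK of project HEA (helper291): the joint law of the effective couplings of two halves.
-/

set_option autoImplicit false

namespace Pool.Agent.Q66.HEA

open MeasureTheory Filter Topology Set Pool.Agent.Q291.HEA

/-- two coordinates of a product measure -/
theorem pair_law {ι : Type*} (μ : Measure ℝ) [IsProbabilityMeasure μ] {a b : ι} (hab : a ≠ b) :
    (Measure.infinitePi fun _ : ι => μ).map (fun x => (x a, x b)) = μ.prod μ := by
  have h1 := (ProbabilityTheory.iIndepFun_infinitePi (P := fun _ : ι => μ)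
    (X := fun _ ω => ω) (fun _ => measurable_id)).indepFun hab
  rw [ProbabilityTheory.indepFun_iff_map_prod_eq_prod_map_map
    (measurable_pi_apply a).aemeasurable (measurable_pi_apply b).aemeasurable] at h1
  have e1 := Measure.infinitePi_map_eval (fun _ : ι => μ) a
  have e2 := Measure.infinitePi_map_eval (fun _ : ι => μ) b
  rw [e1, e2] at h1
  exact h1

/-- sums of independent variables -/
theorem sum_law (ν : Measure ℝ) [IsProbabilityMeasure ν] (n : ℕ) :
    (Measure.pi fun _ : Fin n => ν).map (fun x => ∑ i, x i) = par ν n := by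
  induction n with
  | zero =>
    have e1 : (fun x : Fin 0 → ℝ => ∑ i, x i) = fun _ => 0 := by
      funext x; simp
    rw [e1, Measure.map_const, measure_univ, one_smul]
    rfl
  | succ n ih =>
    have h1 := measurePreserving_piFinSuccAbove (fun _ : Fin (n + 1) => ν) 0
    have e1 : (fun x : Fin (n + 1) → ℝ => ∑ i, x i) =
        (fun z : ℝ × (Fin n → ℝ) => z.1 + ∑ i, z.2 i) ∘
          (MeasurableEquiv.piFinSuccAbove (fun _ : Fin (n + 1) => ℝ) 0) := by
      funext x
      simp only [Function.comp, Fin.sum_univ_succ]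
      rfl
    have hms : Measurable (fun x : Fin n → ℝ => ∑ i, x i) := by fun_prop
    have hms2 : Measurable (fun z : ℝ × (Fin n → ℝ) => z.1 + ∑ i, z.2 i) := by fun_prop
    rw [e1, ← Measure.map_map hms2 (MeasurableEquiv.measurable _), h1.map_eq]
    have e2 : (fun z : ℝ × (Fin n → ℝ) => z.1 + ∑ i, z.2 i) =
        (fun z : ℝ × ℝ => z.1 + z.2) ∘ (Prod.map id (fun x : Fin n → ℝ => ∑ i, x i)) := rfl
    have hadd : Measurable (fun z : ℝ × ℝ => z.1 + z.2) := by fun_prop
    rw [e2, ← Measure.map_map hadd (measurable_id.prodMap hms),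
      ← Measure.map_prod_map _ _ measurable_id hms, Measure.map_id, ih]
    rfl

/-- reindexing -/
theorem reindex {α ι : Type} (μ : Measure ℝ) [IsProbabilityMeasure μ] (Ψ : α ≃ ι) :
    (Measure.infinitePi fun _ : ι => μ).map (fun x a => x (Ψ a)) =
      Measure.infinitePi fun _ : α => μ := by
  have h1 := Measure.infinitePi_map_piCongrLeft (fun _ : α => μ) Ψ.symm
  have e1 : (⇑(MeasurableEquiv.piCongrLeft (fun _ : α => ℝ) Ψ.symm) : (ι → ℝ) → (α → ℝ)) =
      fun x a => x (Ψ a) := by
    funext x a
    have h2 := MeasurableEquiv.piCongrLeft_apply_apply (β := fun _ : α => ℝ) Ψ.symm x (Ψ a)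
    rwa [Equiv.symm_apply_apply] at h2
  rw [e1] at h1
  exact h1

/-- the sum over the branches -/
noncomputable def gsum (B : ℕ) (f : Pos B → ℝ) : ℝ := ∑ i : Fin B, F (f (i, false)) (f (i, true))

theorem meas_gsum (B : ℕ) : Measurable (gsum B) := by
  unfold gsum
  apply Finset.measurable_sum
  intro i _
  have h : Measurable (fun f : Pos B → ℝ => (f (i, false), f (i, true))) :=
    (measurable_pi_apply (i, false)).prodMk (measurable_pi_apply (i, true))
  exact meas_F.comp h

theorem law_gsum (B : ℕ) (μ : Measure ℝ) [IsProbabilityMeasure μ] :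
    (Measure.infinitePi fun _ : Pos B => μ).map (gsum B) = par (ser F μ) B := by
  have hsp := ser_prob μ
  have h1 := Measure.infinitePi_map_curry (fun (_ : Fin B) (_ : Bool) => μ)
  have hp2 : Measurable (fun x : Bool → ℝ => (x false, x true)) :=
    (measurable_pi_apply false).prodMk (measurable_pi_apply true)
  have hh : Measurable (fun x : Bool → ℝ => F (x false) (x true)) := meas_F.comp hp2
  have h2 := Measure.infinitePi_map_pi (fun _ : Fin B => Measure.infinitePi fun _ : Bool => μ)
    (f := fun _ x => F (x false) (x true)) (fun _ => hh)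
  have h3 : (Measure.infinitePi fun _ : Bool => μ).map (fun x : Bool → ℝ => F (x false) (x true)) =
      ser F μ := by
    have e : (fun x : Bool → ℝ => F (x false) (x true)) =
        (fun z : ℝ × ℝ => F z.1 z.2) ∘ fun x : Bool → ℝ => (x false, x true) := rfl
    rw [e, ← Measure.map_map meas_F hp2,
      pair_law μ (by decide : false ≠ true)]
    rfl
  have e : gsum B = (fun x : Fin B → ℝ => ∑ i, x i) ∘
      (fun (x : Fin B → Bool → ℝ) i => F (x i false) (x i true)) ∘
        (MeasurableEquiv.curry (Fin B) Bool ℝ) := by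
    funext f
    rfl
  have hm1 : Measurable (fun x : Fin B → ℝ => ∑ i, x i) := by fun_prop
  have hm2 : Measurable (fun (x : Fin B → Bool → ℝ) (i : Fin B) => F (x i false) (x i true)) :=
    measurable_pi_lambda _ fun i => hh.comp (measurable_pi_apply i)
  rw [e, ← Measure.map_map hm1 (hm2.comp (MeasurableEquiv.measurable _)),
    ← Measure.map_map hm2 (MeasurableEquiv.measurable _), h1, h2]
  simp only [h3]
  rw [Measure.infinitePi_eq_pi]
  exact sum_law _ _

section dec

variable {B : ℕ} [NeZero B] {e : ℕ → Bool}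

/-- shifted halves -/
def sh (e : ℕ → Bool) (k : ℕ) : Bool := e (k + 1)

/-- a bond from its position in the cell of level one and this cell -/
def consB (p : Pos B) (ω : Bond B (sh e)) : Bond B e :=
  ⟨fun k => Nat.casesOn k p fun k => ω.1 k, by
    obtain ⟨N, h⟩ := ω.2
    refine ⟨N + 1, fun k hk => ?_⟩
    obtain ⟨j, rfl⟩ : ∃ j, k = j + 1 := ⟨k - 1, by omega⟩
    exact h j (by omega)⟩

/-- the cell of level one -/
def tailB (ω : Bond B e) : Bond B (sh e) :=
  ⟨fun k => ω.1 (k + 1), by
    obtain ⟨N, h⟩ := ω.2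
    exact ⟨N, fun k hk => h (k + 1) (by omega)⟩⟩

/-- the bijection -/
def Psi (B : ℕ) [NeZero B] (e : ℕ → Bool) : Bond B (sh e) × Pos B ≃ Bond B e where
  toFun q := consB q.2 q.1
  invFun ω := (tailB ω, ω.1 0)
  left_inv _ := rfl
  right_inv ω := by
    apply Subtype.ext
    funext k
    cases k <;> rfl

/-- decimated couplings -/
noncomputable def dec (K : Bond B e → ℝ) (ω : Bond B (sh e)) : ℝ :=
  gsum B fun p => K (consB p ω)

theorem law_dec (μ : Measure ℝ) [IsProbabilityMeasure μ] :
    Measurable (dec : (Bond B e → ℝ) → (Bond B (sh e) → ℝ)) ∧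
    (Measure.infinitePi fun _ : Bond B e => μ).map dec =
      Measure.infinitePi fun _ : Bond B (sh e) => par (ser F μ) B := by
  have h1 := reindex μ (Psi B e)
  have h2 := Measure.infinitePi_map_curry (fun (_ : Bond B (sh e)) (_ : Pos B) => μ)
  have h3 := Measure.infinitePi_map_pi (fun _ : Bond B (sh e) =>
    Measure.infinitePi fun _ : Pos B => μ) (f := fun _ => gsum B) (fun _ => meas_gsum B)
  have hm1 : Measurable (fun (x : Bond B e → ℝ) (a : Bond B (sh e) × Pos B) => x (Psi B e a)) :=
    measurable_pi_lambda _ fun a => measurable_pi_apply _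
  have hm2 : Measurable (fun (x : Bond B (sh e) → Pos B → ℝ) (i : Bond B (sh e)) =>
      gsum B (x i)) := measurable_pi_lambda _ fun i => (meas_gsum B).comp (measurable_pi_apply i)
  have ed : (dec : (Bond B e → ℝ) → (Bond B (sh e) → ℝ)) =
      (fun (x : Bond B (sh e) → Pos B → ℝ) (i : Bond B (sh e)) => gsum B (x i)) ∘
      (MeasurableEquiv.curry (Bond B (sh e)) (Pos B) ℝ) ∘
      (fun (x : Bond B e → ℝ) (a : Bond B (sh e) × Pos B) => x (Psi B e a)) := by
    funext K
    rfl
  refine ⟨?_, ?_⟩
  · rw [ed]
    exact hm2.comp ((MeasurableEquiv.measurable _).comp hm1)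
  · rw [ed, ← Measure.map_map hm2 ((MeasurableEquiv.measurable _).comp hm1),
      ← Measure.map_map (MeasurableEquiv.measurable _) hm1, h1, h2, h3]
    simp only [law_gsum]

theorem tail_upd (ω : Bond B e) (n : ℕ) (p : Pos B) :
    tailB (upd ω (n + 1) p) = upd (tailB ω) n p := by
  apply Subtype.ext
  funext k
  show Function.update ω.1 (n + 1) p (k + 1) = Function.update (fun k => ω.1 (k + 1)) n p k
  by_cases h : k = n
  · subst h; simp
  · rw [Function.update_of_ne (by omega), Function.update_of_ne h]

theorem cons_tail (ω : Bond B e) (p : Pos B) : consB p (tailB ω) = upd ω 0 p := by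
  apply Subtype.ext
  funext k
  show (Nat.casesOn k p fun k => ω.1 (k + 1) : Pos B) = Function.update ω.1 0 p k
  cases k with
  | zero => simp
  | succ k => rw [Function.update_of_ne (by omega)]

theorem eff_dec (K : Bond B e → ℝ) (n : ℕ) : ∀ ω : Bond B e,
    eff K (n + 1) ω = eff (dec K) n (tailB ω) := by
  induction n with
  | zero =>
    intro ω
    show ∑ i : Fin B, F (K (upd ω 0 (i, false))) (K (upd ω 0 (i, true))) =
      ∑ i : Fin B, F (K (consB (i, false) (tailB ω))) (K (consB (i, true) (tailB ω)))
    simp only [cons_tail]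
  | succ n ih =>
    intro ω
    show ∑ i : Fin B, F (eff K (n + 1) (upd ω (n + 1) (i, false)))
        (eff K (n + 1) (upd ω (n + 1) (i, true))) =
      ∑ i : Fin B, F (eff (dec K) n (upd (tailB ω) n (i, false)))
        (eff (dec K) n (upd (tailB ω) n (i, true)))
    simp only [ih, tail_upd]

theorem two_dec (K : Bond B e → ℝ) (n : ℕ) : two K (n + 1) = two (dec K) n := by
  unfold two
  rw [eff_dec, eff_dec, tail_upd, tail_upd]
  rfl

end dec

theorem lawN_succ (B : ℕ) (μ : Measure ℝ) (n : ℕ) :
    lawN B μ (n + 1) = lawN B (par (ser F μ) B) n := by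
  induction n with
  | zero => rfl
  | succ n ih =>
    show par (ser F (lawN B μ (n + 1))) B = par (ser F (lawN B (par (ser F μ) B) n)) B
    rw [ih]

theorem lawk (B : ℕ) [NeZero B] (n : ℕ) : ∀ (e : ℕ → Bool) (μ : Measure ℝ)
    [IsProbabilityMeasure μ], Measurable (fun K : Bond B e → ℝ => two K n) ∧
    (Measure.infinitePi fun _ : Bond B e => μ).map (fun K => two K n) =
      (lawN B μ n).prod (lawN B μ n) := by
  induction n with
  | zero =>
    intro e μ _
    have hab : (upd (orig : Bond B e) 0 (0, false)) ≠ upd orig 0 (0, true) := by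
      intro h
      have h1 := congrArg (fun b : Bond B e => (b.1 0).2) h
      simp [upd] at h1
    refine ⟨(measurable_pi_apply _).prodMk (measurable_pi_apply _), ?_⟩
    exact pair_law μ hab
  | succ n ih =>
    intro e μ _
    have hp : IsProbabilityMeasure (par (ser F μ) B) := by
      have := ser_prob μ
      exact par_prob _ _
    obtain ⟨m1, m2⟩ := law_dec (B := B) (e := e) μ
    obtain ⟨m3, m4⟩ := ih (sh e) (par (ser F μ) B)
    have e1 : (fun K : Bond B e → ℝ => two K (n + 1)) = (fun K => two K n) ∘ dec := by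
      funext K
      exact two_dec K n
    rw [e1]
    refine ⟨m3.comp m1, ?_⟩
    rw [← Measure.map_map m3 m1, m2, m4, lawN_succ]

theorem t_LAWK' : P_LAWK := by
  intro B _ e _ μ _ n
  exact lawk B n e μ

theorem t_LAWK (_ : P_HFIN) : P_LAWK := t_LAWK'

end Pool.Agent.Q66.HEA
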