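import Pool.Agent.Q66.HEA.Sca

/-!
Jobs BC1, BC2 of project HEA (helper291).
-/

set_option autoImplicit false

namespace Pool.Agent.Q66.HEA

open MeasureTheory Filter Topology Set Pool.Agent.Q291.HEA

theorem conc_mul {ν : Measure ℝ} [IsFiniteMeasure ν] {L p : ℝ} (h : Conc ν L p)
    (n : ℕ) (a : ℝ) : ν.real (Ico a (a + n * L)) ≤ n * p := by
  induction n with
  | zero => simp
  | succ n ih =>
    have h1 : Ico a (a + (n + 1 : ℕ) * L) ⊆ Ico a (a + n * L) ∪ Ico (a + n * L) (a + n * L + L) := by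
      intro x hx
      rcases lt_or_ge x (a + n * L) with h2 | h2
      · exact Or.inl ⟨hx.1, h2⟩
      · refine Or.inr ⟨h2, ?_⟩
        have := hx.2
        push_cast at this
        linarith
    calc ν.real (Ico a (a + (n + 1 : ℕ) * L)) ≤
        ν.real (Ico a (a + n * L) ∪ Ico (a + n * L) (a + n * L + L)) :=
          measureReal_mono h1 (measure_ne_top _ _)
      _ ≤ ν.real (Ico a (a + n * L)) + ν.real (Ico (a + n * L) (a + n * L + L)) :=
          measureReal_union_le _ _
      _ ≤ n * p + p := add_le_add ih (h _)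
      _ = (n + 1 : ℕ) * p := by push_cast; ring

theorem conc_prod {ν : Measure ℝ} [IsProbabilityMeasure ν] {L p : ℝ}
    (h : Conc ν L p) (n : ℕ) :
    (ν.prod ν) {z : ℝ × ℝ | |(|z.1| - |z.2|)| < n * L} ≤ ENNReal.ofReal (4 * n * p) := by
  have hms : MeasurableSet {z : ℝ × ℝ | |(|z.1| - |z.2|)| < n * L} :=
    (isOpen_lt (by fun_prop) continuous_const).measurableSet
  rw [Measure.prod_apply_symm hms]
  have hb : ∀ y : ℝ, ν ((fun x => (x, y)) ⁻¹' {z : ℝ × ℝ | |(|z.1| - |z.2|)| < n * L}) ≤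
      ENNReal.ofReal (4 * n * p) := by
    intro y
    have hsub : (fun x => (x, y)) ⁻¹' {z : ℝ × ℝ | |(|z.1| - |z.2|)| < n * L} ⊆
        Ico (|y| - n * L) (|y| - n * L + (2 * n : ℕ) * L) ∪
          Ico (-|y| - n * L) (-|y| - n * L + (2 * n : ℕ) * L) := by
      intro x hx
      have hx' : |(|x| - |y|)| < n * L := hx
      rw [abs_lt] at hx'
      push_cast
      rcases le_or_gt 0 x with h0 | h0
      · rw [abs_of_nonneg h0] at hx'
        left
        constructor <;> linarith [hx'.1, hx'.2]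
      · rw [abs_of_neg h0] at hx'
        right
        constructor <;> linarith [hx'.1, hx'.2]
    have h1 := measureReal_mono (μ := ν) hsub (measure_ne_top _ _)
    have h2 := measureReal_union_le (μ := ν) (Ico (|y| - n * L) (|y| - n * L + (2 * n : ℕ) * L))
      (Ico (-|y| - n * L) (-|y| - n * L + (2 * n : ℕ) * L))
    have h3 := conc_mul h (2 * n) (|y| - n * L)
    have h4 := conc_mul h (2 * n) (-|y| - n * L)
    rw [← ofReal_measureReal]
    apply ENNReal.ofReal_le_ofReal
    push_cast at h1 h2 h3 h4 ⊢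
    linarith
  calc ∫⁻ y, ν ((fun x => (x, y)) ⁻¹' {z : ℝ × ℝ | |(|z.1| - |z.2|)| < n * L}) ∂ν ≤
      ∫⁻ _, ENNReal.ofReal (4 * n * p) ∂ν := lintegral_mono hb
    _ = ENNReal.ofReal (4 * n * p) := by simp

theorem one_sub_tanh_le {x : ℝ} (_hx : 0 ≤ x) : 1 - Real.tanh x ≤ 2 * Real.exp (-(2 * x)) := by
  rw [Real.tanh_eq_sinh_div_cosh, Real.sinh_eq, Real.cosh_eq]
  have h1 := Real.exp_pos x
  have h2 := Real.exp_pos (-x)
  have h3 : Real.exp (-(2 * x)) = Real.exp (-x) * Real.exp (-x) := by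
    rw [← Real.exp_add]; congr 1; ring
  have h4 : Real.exp x * Real.exp (-x) = 1 := by rw [← Real.exp_add]; simp
  rw [h3]
  have h5 : 1 - (Real.exp x - Real.exp (-x)) / 2 / ((Real.exp x + Real.exp (-x)) / 2) =
      2 * Real.exp (-x) / (Real.exp x + Real.exp (-x)) := by
    field_simp
    ring
  rw [h5, div_le_iff₀ (by positivity)]
  nlinarith [mul_pos h2 h2, mul_pos (mul_pos h2 h2) h2]

theorem tanh_mono {x y : ℝ} (h : x ≤ y) : Real.tanh x ≤ Real.tanh y := by
  rcases h.eq_or_lt with h | h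
  · rw [h]
  · rw [Real.tanh_eq_sinh_div_cosh, Real.tanh_eq_sinh_div_cosh, div_le_div_iff₀ (Real.cosh_pos x)
      (Real.cosh_pos y)]
    have h1 : 0 < Real.sinh (y - x) := Real.sinh_pos_iff.2 (by linarith)
    rw [Real.sinh_sub] at h1
    linarith

theorem t_BC1 (hK : P_LAWK) : P_BC1 := by
  intro B _ e he μ _ L C ρ hL hC hρ hρ1 hc
  set P : Measure (Bond B e → ℝ) := Measure.infinitePi fun _ : Bond B e => μ with hP
  have hs : ∀ n, P {K | |(|(two K n).1| - |(two K n).2|)| < n * L} ≤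
      ENNReal.ofReal (4 * n * (C * ρ ^ n)) := by
    intro n
    obtain ⟨hm, hl⟩ := hK (B := B) he μ n
    have hpn := lawN_prob B μ n
    have hms : MeasurableSet {z : ℝ × ℝ | |(|z.1| - |z.2|)| < n * L} :=
      (isOpen_lt (by fun_prop) continuous_const).measurableSet
    have h3 := conc_prod (hc n) n
    rw [← hl, Measure.map_apply hm hms] at h3
    exact h3
  have hsum : Summable (fun n : ℕ => 4 * n * (C * ρ ^ n)) := by
    have h1 := (summable_pow_mul_geometric_of_norm_lt_one 1 (r := ρ) (by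
      rw [Real.norm_of_nonneg hρ.le]; exact hρ1)).mul_left (4 * C)
    refine h1.congr fun n => ?_
    rw [pow_one]; ring
  have hne : ∑' n, P {K | |(|(two K n).1| - |(two K n).2|)| < n * L} ≠ ⊤ :=
    ne_top_of_le_ne_top hsum.tsum_ofReal_ne_top (ENNReal.tsum_le_tsum hs)
  filter_upwards [ae_eventually_notMem hne] with K hKn
  have hexp : Summable (fun n : ℕ => 2 * Real.exp (-(2 * (n * L)))) := by
    have h1 : Summable (fun n : ℕ => (Real.exp (-(2 * L))) ^ n) :=
      summable_geometric_of_lt_one (Real.exp_pos _).le (by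
        rw [Real.exp_lt_one_iff]; linarith)
    refine (h1.mul_left 2).congr fun n => ?_
    rw [← Real.exp_nat_mul]
    congr 2
    ring
  refine hexp.of_norm_bounded_eventually_nat ?_
  filter_upwards [hKn] with n hn
  have hn' : (n : ℝ) * L ≤ |(|(two K n).1| - |(two K n).2|)| := not_lt.1 hn
  have h0 : 0 ≤ 1 - Real.tanh (|(|(two K n).1| - |(two K n).2|)|) := by
    linarith [Real.tanh_lt_one (|(|(two K n).1| - |(two K n).2|)|)]
  rw [Real.norm_of_nonneg h0]
  have h1 := tanh_mono hn'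
  have h2 := one_sub_tanh_le (x := n * L) (by positivity)
  linarith

theorem t_BC2 (hK : P_LAWK) : P_BC2 := by
  intro B _ e he μ _ C ρ hρ hρ1 hc
  set P : Measure (Bond B e → ℝ) := Measure.infinitePi fun _ : Bond B e => μ with hP
  have hs : ∀ n, ∫⁻ K, ENNReal.ofReal (|(two K n).1| + |(two K n).2|) ∂P ≤
      ENNReal.ofReal (2 * |C| * ρ ^ n) := by
    intro n
    obtain ⟨hm, hl⟩ := hK (B := B) he μ n
    have hpn := lawN_prob B μ n
    obtain ⟨hi, hb⟩ := hc n
    have h1 : ∫⁻ K, ENNReal.ofReal (|(two K n).1| + |(two K n).2|) ∂P =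
        ∫⁻ z, ENNReal.ofReal (|z.1| + |z.2|) ∂((lawN B μ n).prod (lawN B μ n)) := by
      rw [← hl, lintegral_map (by fun_prop) hm]
    have h2 : ∫⁻ z, ENNReal.ofReal (|z.1| + |z.2|) ∂((lawN B μ n).prod (lawN B μ n)) =
        ∫⁻ x, ENNReal.ofReal |x| ∂(lawN B μ n) + ∫⁻ x, ENNReal.ofReal |x| ∂(lawN B μ n) := by
      have e1 : ∀ z : ℝ × ℝ, ENNReal.ofReal (|z.1| + |z.2|) =
          ENNReal.ofReal |z.1| + ENNReal.ofReal |z.2| := fun z =>
        ENNReal.ofReal_add (abs_nonneg _) (abs_nonneg _)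
      rw [lintegral_congr e1, lintegral_add_left (by fun_prop)]
      congr 1
      · rw [← lintegral_map (f := fun x : ℝ => ENNReal.ofReal |x|) (by fun_prop) measurable_fst,
          Measure.map_fst_prod, measure_univ, one_smul]
      · rw [← lintegral_map (f := fun x : ℝ => ENNReal.ofReal |x|) (by fun_prop) measurable_snd,
          Measure.map_snd_prod, measure_univ, one_smul]
    have h3 : ∫⁻ x, ENNReal.ofReal |x| ∂(lawN B μ n) = ENNReal.ofReal (∫ x, |x| ∂(lawN B μ n)) :=
      (ofReal_integral_eq_lintegral_ofReal hi.abs (ae_of_all _ fun x => abs_nonneg x)).symm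
    rw [h1, h2, h3, ← ENNReal.ofReal_add (integral_nonneg fun x => abs_nonneg x)
      (integral_nonneg fun x => abs_nonneg x)]
    apply ENNReal.ofReal_le_ofReal
    have h4 : C * ρ ^ n ≤ |C| * ρ ^ n :=
      mul_le_mul_of_nonneg_right (le_abs_self C) (pow_nonneg hρ.le n)
    linarith
  have hsum : Summable (fun n : ℕ => 2 * |C| * ρ ^ n) :=
    (summable_geometric_of_lt_one hρ.le hρ1).mul_left _
  have hmeas : ∀ n, Measurable (fun K : Bond B e → ℝ =>
      ENNReal.ofReal (|(two K n).1| + |(two K n).2|)) := by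
    intro n
    obtain ⟨hm, -⟩ := hK (B := B) he μ n
    have h1 : Measurable (fun z : ℝ × ℝ => ENNReal.ofReal (|z.1| + |z.2|)) := by fun_prop
    exact h1.comp hm
  have hne : ∫⁻ K, ∑' n, ENNReal.ofReal (|(two K n).1| + |(two K n).2|) ∂P ≠ ⊤ := by
    rw [lintegral_tsum (fun n => (hmeas n).aemeasurable)]
    exact ne_top_of_le_ne_top hsum.tsum_ofReal_ne_top (ENNReal.tsum_le_tsum hs)
  filter_upwards [ae_lt_top (Measurable.ennreal_tsum hmeas) hne] with K hKn
  have h1 := ENNReal.summable_toReal hKn.ne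
  refine h1.congr fun n => ?_
  rw [ENNReal.toReal_ofReal (by positivity)]

end Pool.Agent.Q66.HEA
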